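import Mathlib
import Pool.Agent.Lib_helper87.JO.GamC

namespace Pool.Agent.QSK1

open MeasureTheory Set Filter Topology Metric
open scoped Real Interval

/-- Contour integral of a function which is `o(1/|z|)` at infinity. -/
theorem circle_zero {c : ℂ} {R : ℝ} (hR : 0 < R) {f : ℂ → ℂ}
    (hf : ∀ z, z ∉ ball c R → DifferentiableAt ℂ f z)
    (hlim : Tendsto (fun z => z * f z) (Bornology.cobounded ℂ) (𝓝 0)) :
    (∮ z in C(c, R), f z) = 0 := by
  have hlim2 : Tendsto (fun z => (z - c) * f z) (Bornology.cobounded ℂ) (𝓝 0) := by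
    have h1 : Tendsto (fun z : ℂ => z⁻¹) (Bornology.cobounded ℂ) (𝓝 0) := tendsto_inv₀_cobounded
    have h2 : Tendsto (fun z : ℂ => (1 - c * z⁻¹) * (z * f z)) (Bornology.cobounded ℂ)
        (𝓝 ((1 - c * 0) * 0)) := (tendsto_const_nhds.sub (tendsto_const_nhds.mul h1)).mul hlim
    rw [mul_zero] at h2
    refine h2.congr' ?_
    have h3 : ∀ᶠ z : ℂ in Bornology.cobounded ℂ, z ≠ 0 := Bornology.eventually_ne_cobounded 0
    filter_upwards [h3] with z hz
    field_simp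
  rw [← norm_le_zero_iff]
  refine le_of_forall_pos_le_add (fun ε hε => ?_)
  rw [zero_add]
  have hε2 : 0 < ε / (2 * π) := by positivity
  have hev := hlim2.eventually (Metric.ball_mem_nhds (0 : ℂ) hε2)
  rw [← comap_norm_atTop, eventually_comap] at hev
  obtain ⟨N, hN⟩ := (eventually_atTop.1 hev)
  set R' : ℝ := max R (N + ‖c‖) with hR'
  have hRR' : R ≤ R' := le_max_left _ _
  have hR'0 : 0 < R' := lt_of_lt_of_le hR hRR'
  have heq : (∮ z in C(c, R'), f z) = ∮ z in C(c, R), f z := by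
    refine Complex.circleIntegral_eq_of_differentiable_on_annulus_off_countable hR hRR'
      (s := ∅) countable_empty ?_ ?_
    · intro z hz
      exact (hf z hz.2).continuousAt.continuousWithinAt
    · intro z hz
      refine hf z (fun h => hz.1.2 (ball_subset_closedBall h))
  rw [← heq]
  have hb : ∀ z ∈ sphere c R', ‖f z‖ ≤ ε / (2 * π) / R' := by
    intro z hz
    have hzc : ‖z - c‖ = R' := by simpa [dist_eq_norm] using hz
    have hzN : N ≤ ‖z‖ := by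
      have h1 : ‖z - c‖ ≤ ‖z‖ + ‖c‖ := norm_sub_le z c
      have h2 : N + ‖c‖ ≤ R' := le_max_right _ _
      linarith
    have h3 := hN ‖z‖ hzN z rfl
    rw [dist_zero_right, norm_mul, hzc] at h3
    rw [le_div_iff₀ hR'0, mul_comm]
    exact h3.le
  have h4 := circleIntegral.norm_integral_le_of_norm_le_const hR'0.le hb
  refine h4.trans (le_of_eq ?_)
  field_simp

theorem t0 {a : ℝ} (ha : a ≠ 0) :
    Tendsto (fun z : ℂ => ((a : ℂ) * z - 1)⁻¹) (Bornology.cobounded ℂ) (𝓝 0) := by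
  have ha' : (a : ℂ) ≠ 0 := by exact_mod_cast ha
  refine tendsto_inv₀_cobounded.comp ?_
  have h1 : Tendsto (fun z : ℂ => (a : ℂ) * z) (Bornology.cobounded ℂ) (Bornology.cobounded ℂ) :=
    Filter.tendsto_mul_left_cobounded ha'
  have h2 : Tendsto (fun z : ℂ => z - 1) (Bornology.cobounded ℂ) (Bornology.cobounded ℂ) := by
    simp [sub_eq_add_neg]
  exact h2.comp h1

theorem t1 {a : ℝ} (ha : a ≠ 0) :
    Tendsto (fun z : ℂ => z * ((a : ℂ) * z - 1)⁻¹) (Bornology.cobounded ℂ) (𝓝 (a : ℂ)⁻¹) := by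
  have ha' : (a : ℂ) ≠ 0 := by exact_mod_cast ha
  have h1 : Tendsto (fun z : ℂ => (a : ℂ)⁻¹ + (a : ℂ)⁻¹ * ((a : ℂ) * z - 1)⁻¹)
      (Bornology.cobounded ℂ) (𝓝 ((a : ℂ)⁻¹ + (a : ℂ)⁻¹ * 0)) :=
    tendsto_const_nhds.add (tendsto_const_nhds.mul (t0 ha))
  rw [mul_zero, add_zero] at h1
  refine h1.congr' ?_
  have h3 : ∀ᶠ z : ℂ in Bornology.cobounded ℂ, z ≠ (a : ℂ)⁻¹ := Bornology.eventually_ne_cobounded _
  filter_upwards [h3] with z hz
  have hz' : (a : ℂ) * z - 1 ≠ 0 := by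
    intro h
    apply hz
    refine eq_inv_of_mul_eq_one_left ?_
    rw [mul_comm]
    exact sub_eq_zero.1 h
  field_simp
  ring

section contour

variable {c R : ℝ}

/-- the inverse eigenvalue lies inside the contour -/
def Ins (c R a : ℝ) : Prop := 0 < a ∧ |a⁻¹ - c| < R

theorem Ins.ne {a : ℝ} (h : Ins c R a) {z : ℂ} (hz : z ∉ ball (c : ℂ) R) : (a : ℂ) * z - 1 ≠ 0 := by
  intro h0
  apply hz
  have ha' : (a : ℂ) ≠ 0 := by exact_mod_cast h.1.ne'
  have hz' : z = ((a⁻¹ : ℝ) : ℂ) := by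
    push_cast
    refine eq_inv_of_mul_eq_one_left ?_
    rw [mul_comm]
    exact sub_eq_zero.1 h0
  rw [hz', mem_ball, dist_eq_norm, ← Complex.ofReal_sub, Complex.norm_real]
  exact h.2

theorem Ins.ne_sphere {a : ℝ} (h : Ins c R a) {z : ℂ} (hz : z ∈ sphere (c : ℂ) R) :
    (a : ℂ) * z - 1 ≠ 0 :=
  h.ne (fun hb => by
    have h1 : dist z (c : ℂ) = R := hz
    have h2 : dist z (c : ℂ) < R := hb
    exact absurd h1 h2.ne)

theorem re_pos (hc : R < c) {z : ℂ} (hz : z ∈ closedBall (c : ℂ) R) : 0 < z.re := by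
  have h1 : ‖z - c‖ ≤ R := by simpa [dist_eq_norm] using hz
  have h2 : |(z - c).re| ≤ ‖z - c‖ := Complex.abs_re_le_norm _
  have h3 := (abs_le.1 (h2.trans h1)).1
  simp only [Complex.sub_re, Complex.ofReal_re] at h3
  linarith

theorem ne_zero (hc : R < c) {z : ℂ} (hz : z ∈ closedBall (c : ℂ) R) : z ≠ 0 := by
  rintro rfl
  simpa using re_pos hc hz

theorem diff_inv {a : ℝ} {z : ℂ} (h : (a : ℂ) * z - 1 ≠ 0) :
    DifferentiableAt ℂ (fun z : ℂ => ((a : ℂ) * z - 1)⁻¹) z := by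
  have : DifferentiableAt ℂ (fun z : ℂ => (a : ℂ) * z - 1) z := by fun_prop
  exact this.inv h

theorem van2 (hR : 0 < R) {a b : ℝ} (ha : Ins c R a) (hb : Ins c R b) :
    (∮ z in C((c : ℂ), R), ((a : ℂ) * z - 1)⁻¹ * ((b : ℂ) * z - 1)⁻¹) = 0 := by
  refine circle_zero hR (fun z hz => ?_) ?_
  · exact (diff_inv (ha.ne hz)).mul (diff_inv (hb.ne hz))
  · have h := (t1 ha.1.ne').mul (t0 hb.1.ne')
    rw [mul_zero] at h
    refine h.congr (fun z => ?_)
    ring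

theorem van3 (hR : 0 < R) {a b d : ℝ} (ha : Ins c R a) (hb : Ins c R b) (hd : Ins c R d) :
    (∮ z in C((c : ℂ), R), z * (((a : ℂ) * z - 1)⁻¹ * ((b : ℂ) * z - 1)⁻¹ * ((d : ℂ) * z - 1)⁻¹))
      = 0 := by
  refine circle_zero hR (fun z hz => ?_) ?_
  · exact differentiableAt_id.mul (((diff_inv (ha.ne hz)).mul (diff_inv (hb.ne hz))).mul
      (diff_inv (hd.ne hz)))
  · have h := ((t1 ha.1.ne').mul (t1 hb.1.ne')).mul (t0 hd.1.ne')
    rw [mul_zero] at h
    refine h.congr (fun z => ?_)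
    ring

theorem van4 (hR : 0 < R) {a b d e : ℝ} (ha : Ins c R a) (hb : Ins c R b) (hd : Ins c R d)
    (he : Ins c R e) :
    (∮ z in C((c : ℂ), R), z ^ 2 * (((a : ℂ) * z - 1)⁻¹ * ((b : ℂ) * z - 1)⁻¹ *
      ((d : ℂ) * z - 1)⁻¹ * ((e : ℂ) * z - 1)⁻¹)) = 0 := by
  refine circle_zero hR (fun z hz => ?_) ?_
  · exact (differentiableAt_id.pow 2).mul ((((diff_inv (ha.ne hz)).mul (diff_inv (hb.ne hz))).mul
      (diff_inv (hd.ne hz))).mul (diff_inv (he.ne hz)))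
  · have h := (((t1 ha.1.ne').mul (t1 hb.1.ne')).mul (t1 hd.1.ne')).mul (t0 he.1.ne')
    rw [mul_zero] at h
    refine h.congr (fun z => ?_)
    ring

theorem two_pi_I_ne : (2 * (π : ℂ) * Complex.I) ≠ 0 := Complex.two_pi_I_ne_zero

/-- Cauchy's formula for one factor -/
theorem G1 (hR : 0 < R) (hc : R < c) {d : ℝ} (hd : Ins c R d) (s : ℝ) :
    (2 * (π : ℂ) * Complex.I)⁻¹ * (∮ z in C((c : ℂ), R),
      (z⁻¹ * ((d : ℂ) * z - 1)⁻¹) * Complex.exp (-((s : ℂ) / z))) = ((Real.exp (-(d * s)) : ℝ) : ℂ) := by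
  have hd' : (d : ℂ) ≠ 0 := by exact_mod_cast hd.1.ne'
  have hdi : ((d⁻¹ : ℝ) : ℂ) ∈ ball (c : ℂ) R := by
    rw [mem_ball, dist_eq_norm, ← Complex.ofReal_sub, Complex.norm_real]
    exact hd.2
  have hdiff : DifferentiableOn ℂ (fun z : ℂ => (d : ℂ)⁻¹ * z⁻¹ * Complex.exp (-((s : ℂ) / z)))
      (closedBall (c : ℂ) R) := by
    intro z hz
    have hz0 := ne_zero hc hz
    refine DifferentiableAt.differentiableWithinAt ?_
    refine DifferentiableAt.mul ?_ ?_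
    · exact (differentiableAt_inv hz0).const_mul _
    · refine DifferentiableAt.cexp ?_
      refine DifferentiableAt.neg ?_
      exact (differentiableAt_const _).div differentiableAt_id hz0
  have h := hdiff.circleIntegral_sub_inv_smul hdi
  have h2 : (∮ z in C((c : ℂ), R), (z⁻¹ * ((d : ℂ) * z - 1)⁻¹) * Complex.exp (-((s : ℂ) / z))) =
      ∮ z in C((c : ℂ), R), (z - ((d⁻¹ : ℝ) : ℂ))⁻¹ •
        ((d : ℂ)⁻¹ * z⁻¹ * Complex.exp (-((s : ℂ) / z))) := by
    refine circleIntegral.integral_congr hR.le (fun z hz => ?_)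
    have h3 := hd.ne_sphere hz
    have h4 : (z - ((d⁻¹ : ℝ) : ℂ)) = (d : ℂ)⁻¹ * ((d : ℂ) * z - 1) := by
      push_cast
      field_simp
    simp only [smul_eq_mul]
    rw [h4, mul_inv, inv_inv]
    field_simp
  rw [h2, h, smul_eq_mul]
  push_cast
  have h5 : (2 * (π : ℂ) * Complex.I)⁻¹ * (2 * (π : ℂ) * Complex.I *
      ((d : ℂ)⁻¹ * (d : ℂ)⁻¹⁻¹ * Complex.exp (-((s : ℂ) / (d : ℂ)⁻¹)))) =
      ((2 * (π : ℂ) * Complex.I)⁻¹ * (2 * (π : ℂ) * Complex.I)) * (((d : ℂ)⁻¹ * (d : ℂ)⁻¹⁻¹) *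
        Complex.exp (-((s : ℂ) / (d : ℂ)⁻¹))) := by ring
  rw [h5, inv_mul_cancel₀ two_pi_I_ne, inv_inv, inv_mul_cancel₀ hd', one_mul, one_mul, div_inv_eq_mul]
  ring_nf

/-- continuity on the contour -/
theorem cm_ne (hc : R < c) (hR : 0 < R) (θ : ℝ) : circleMap (c : ℂ) R θ ≠ 0 :=
  ne_zero hc (sphere_subset_closedBall (circleMap_mem_sphere _ hR.le θ))

/-- Fubini for a contour integral against an interval integral -/
theorem swap (hR : 0 < R) (hc : R < c) {φ : ℂ → ℂ} (hφ : ContinuousOn φ (sphere (c : ℂ) R))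
    {g : ℝ → ℂ} (hg : Continuous g) (t : ℝ) :
    (∫ s in (0 : ℝ)..t, g s * (∮ z in C((c : ℂ), R), φ z * Complex.exp (-(((t - s : ℝ) : ℂ) / z)))) =
      ∮ z in C((c : ℂ), R), φ z * (∫ s in (0 : ℝ)..t, g s * Complex.exp (-(((t - s : ℝ) : ℂ) / z))) := by
  have hφ' : Continuous (fun θ => φ (circleMap (c : ℂ) R θ)) :=
    hφ.comp_continuous (continuous_circleMap _ _) (fun θ => circleMap_mem_sphere _ hR.le θ)
  simp only [circleIntegral, smul_eq_mul]
  have h1 : ∀ s : ℝ, g s * (∫ θ in (0 : ℝ)..2 * π, deriv (circleMap (c : ℂ) R) θ *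
      (φ (circleMap (c : ℂ) R θ) * Complex.exp (-(((t - s : ℝ) : ℂ) / circleMap (c : ℂ) R θ)))) =
      ∫ θ in (0 : ℝ)..2 * π, g s * (deriv (circleMap (c : ℂ) R) θ *
      (φ (circleMap (c : ℂ) R θ) * Complex.exp (-(((t - s : ℝ) : ℂ) / circleMap (c : ℂ) R θ)))) :=
    fun s => (intervalIntegral.integral_const_mul _ _).symm
  have h2 : ∀ θ : ℝ, deriv (circleMap (c : ℂ) R) θ * (φ (circleMap (c : ℂ) R θ) *
      ∫ s in (0 : ℝ)..t, g s * Complex.exp (-(((t - s : ℝ) : ℂ) / circleMap (c : ℂ) R θ))) =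
      ∫ s in (0 : ℝ)..t, g s * (deriv (circleMap (c : ℂ) R) θ *
      (φ (circleMap (c : ℂ) R θ) * Complex.exp (-(((t - s : ℝ) : ℂ) / circleMap (c : ℂ) R θ)))) := by
    intro θ
    rw [← mul_assoc, ← intervalIntegral.integral_const_mul]
    refine intervalIntegral.integral_congr (fun s _ => ?_)
    ring
  simp_rw [h1, h2]
  refine intervalIntegral_intervalIntegral_swap ?_
  have hcont : Continuous (Function.uncurry fun (s θ : ℝ) => g s * (deriv (circleMap (c : ℂ) R) θ *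
      (φ (circleMap (c : ℂ) R θ) * Complex.exp (-(((t - s : ℝ) : ℂ) / circleMap (c : ℂ) R θ))))) := by
    have hcm : Continuous (fun x : ℝ × ℝ => circleMap (c : ℂ) R x.2) :=
      (continuous_circleMap _ _).comp continuous_snd
    have hd : Continuous (fun x : ℝ × ℝ => deriv (circleMap (c : ℂ) R) x.2) := by
      simp only [deriv_circleMap]
      exact (((continuous_circleMap _ _).comp continuous_snd)).mul continuous_const
    have he : Continuous (fun x : ℝ × ℝ => Complex.exp (-(((t - x.1 : ℝ) : ℂ) / circleMap (c : ℂ) R x.2))) := by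
      refine Complex.continuous_exp.comp ?_
      refine Continuous.neg ?_
      refine Continuous.div ?_ hcm (fun x => cm_ne hc hR x.2)
      exact Complex.continuous_ofReal.comp (continuous_const.sub continuous_fst)
    exact (hg.comp continuous_fst).mul (hd.mul ((hφ'.comp continuous_snd).mul he))
  have hK : IsCompact (uIcc (0 : ℝ) t ×ˢ uIcc (0 : ℝ) (2 * π)) := isCompact_uIcc.prod isCompact_uIcc
  exact (hcont.continuousOn.integrableOn_compact hK).mono_set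
    (prod_mono uIoc_subset_uIcc uIoc_subset_uIcc)

end contour

/-- convolution of two exponentials -/
noncomputable def E2 (a b s : ℝ) : ℝ := ∫ u in (0 : ℝ)..s, Real.exp (-(a * u)) * Real.exp (-(b * (s - u)))

/-- convolution of four exponentials -/
noncomputable def E4 (a b d e t : ℝ) : ℝ := ∫ s in (0 : ℝ)..t, E2 a b s * E2 d e (t - s)

theorem E2_eq (a b s : ℝ) :
    E2 a b s = Real.exp (-(b * s)) * ∫ u in (0 : ℝ)..s, Real.exp ((b - a) * u) := by
  rw [E2, ← intervalIntegral.integral_const_mul]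
  refine intervalIntegral.integral_congr (fun u _ => ?_)
  change Real.exp (-(a * u)) * Real.exp (-(b * (s - u))) =
    Real.exp (-(b * s)) * Real.exp ((b - a) * u)
  rw [← Real.exp_add, ← Real.exp_add]
  congr 1
  ring

theorem E2_hasDerivAt (a b s : ℝ) :
    HasDerivAt (E2 a b) (Real.exp (-(a * s)) - b * E2 a b s) s := by
  have h1 : HasDerivAt (fun s => ∫ u in (0 : ℝ)..s, Real.exp ((b - a) * u)) (Real.exp ((b - a) * s)) s := by
    have hc : Continuous (fun u : ℝ => Real.exp ((b - a) * u)) := by fun_prop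
    exact intervalIntegral.integral_hasDerivAt_right (hc.intervalIntegrable _ _)
      (hc.stronglyMeasurableAtFilter _ _) hc.continuousAt
  have h2 : HasDerivAt (fun s => Real.exp (-(b * s))) (Real.exp (-(b * s)) * (-(b * 1))) s := by
    exact (((hasDerivAt_id s).const_mul b).neg).exp
  have h3 := h2.mul h1
  have h4 : (E2 a b) = fun s => Real.exp (-(b * s)) * ∫ u in (0 : ℝ)..s, Real.exp ((b - a) * u) := by
    funext s; exact E2_eq a b s
  have h5 : Real.exp (-(a * s)) - b * E2 a b s = Real.exp (-(b * s)) * (-(b * 1)) *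
      (∫ u in (0 : ℝ)..s, Real.exp ((b - a) * u)) + Real.exp (-(b * s)) * Real.exp ((b - a) * s) := by
    rw [E2_eq, ← Real.exp_add]
    have : -(b * s) + (b - a) * s = -(a * s) := by ring
    rw [this]
    ring
  rw [h5, h4]
  exact h3

theorem E2_continuous (a b : ℝ) : Continuous (E2 a b) := by
  rw [continuous_iff_continuousAt]
  intro s
  exact (E2_hasDerivAt a b s).continuousAt

theorem E2_zero (a b : ℝ) : E2 a b 0 = 0 := by simp [E2]

section contour2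

variable {c R : ℝ}

/-- inner integral, one exponential -/
theorem inner1 {a : ℝ} {z : ℂ} (hz : z ≠ 0) (haz : (a : ℂ) * z - 1 ≠ 0) (t : ℝ) :
    (∫ s in (0 : ℝ)..t, ((Real.exp (-(a * s)) : ℝ) : ℂ) * Complex.exp (-(((t - s : ℝ) : ℂ) / z))) =
      z * ((a : ℂ) * z - 1)⁻¹ * (Complex.exp (-((t : ℂ) / z)) - ((Real.exp (-(a * t)) : ℝ) : ℂ)) := by
  have hd : ∀ s ∈ uIcc (0 : ℝ) t, HasDerivAt (fun s : ℝ => -(z * ((a : ℂ) * z - 1)⁻¹) *
      (((Real.exp (-(a * s)) : ℝ) : ℂ) * Complex.exp (-(((t - s : ℝ) : ℂ) / z))))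
      (((Real.exp (-(a * s)) : ℝ) : ℂ) * Complex.exp (-(((t - s : ℝ) : ℂ) / z))) s := by
    intro s _
    have h1 : HasDerivAt (fun s : ℝ => ((Real.exp (-(a * s)) : ℝ) : ℂ))
        (((Real.exp (-(a * s)) * (-(a * 1)) : ℝ)) : ℂ) s :=
      ((((hasDerivAt_id s).const_mul a).neg).exp).ofReal_comp
    have h2 : HasDerivAt (fun s : ℝ => -(((t - s : ℝ) : ℂ) / z)) (-(((-1 : ℝ) : ℂ) / z)) s := by
      have h3 : HasDerivAt (fun s : ℝ => ((t - s : ℝ) : ℂ)) ((-1 : ℝ) : ℂ) s := by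
        exact ((hasDerivAt_id s).const_sub t).ofReal_comp
      exact (h3.div_const z).neg
    have h4 := (h1.fun_mul h2.cexp).const_mul (-(z * ((a : ℂ) * z - 1)⁻¹))
    refine h4.congr_deriv ?_
    have hA : ((a : ℂ) * z - 1)⁻¹ * ((a : ℂ) * z - 1) = 1 := inv_mul_cancel₀ haz
    have hZ : z * z⁻¹ = 1 := mul_inv_cancel₀ hz
    push_cast
    generalize Complex.exp (-(((t : ℂ) - s) / z)) = X
    generalize Complex.exp (-((a : ℂ) * s)) = E
    generalize ((a : ℂ) * z - 1)⁻¹ = A at hA ⊢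
    linear_combination (E * X) * hA - (E * X * A) * hZ
  rw [intervalIntegral.integral_eq_sub_of_hasDerivAt hd]
  · simp only [sub_self, Complex.ofReal_zero, zero_div, neg_zero, Complex.exp_zero, mul_one,
      mul_zero, Real.exp_zero, Complex.ofReal_one, one_mul, sub_zero]
    ring
  · refine Continuous.intervalIntegrable ?_ _ _
    fun_prop

/-- inner integral, two exponentials -/
theorem inner2 {a b : ℝ} {z : ℂ} (hz : z ≠ 0) (haz : (a : ℂ) * z - 1 ≠ 0)
    (hbz : (b : ℂ) * z - 1 ≠ 0) (t : ℝ) :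
    (∫ s in (0 : ℝ)..t, ((E2 a b s : ℝ) : ℂ) * Complex.exp (-(((t - s : ℝ) : ℂ) / z))) =
      z ^ 2 * (((a : ℂ) * z - 1)⁻¹ * ((b : ℂ) * z - 1)⁻¹) *
        (Complex.exp (-((t : ℂ) / z)) - ((Real.exp (-(a * t)) : ℝ) : ℂ)) -
      z * ((b : ℂ) * z - 1)⁻¹ * ((E2 a b t : ℝ) : ℂ) := by
  have hd : ∀ s ∈ uIcc (0 : ℝ) t, HasDerivAt (fun s : ℝ => (-(z * ((b : ℂ) * z - 1)⁻¹)) *
      ((((E2 a b s : ℝ) : ℂ) + (z * ((a : ℂ) * z - 1)⁻¹) * ((Real.exp (-(a * s)) : ℝ) : ℂ)) *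
        Complex.exp (-(((t - s : ℝ) : ℂ) / z))))
      (((E2 a b s : ℝ) : ℂ) * Complex.exp (-(((t - s : ℝ) : ℂ) / z))) s := by
    intro s _
    have h0 : HasDerivAt (fun s : ℝ => ((E2 a b s : ℝ) : ℂ))
        (((Real.exp (-(a * s)) - b * E2 a b s : ℝ)) : ℂ) s := (E2_hasDerivAt a b s).ofReal_comp
    have h1 : HasDerivAt (fun s : ℝ => ((Real.exp (-(a * s)) : ℝ) : ℂ))
        (((Real.exp (-(a * s)) * (-(a * 1)) : ℝ)) : ℂ) s :=
      ((((hasDerivAt_id s).const_mul a).neg).exp).ofReal_comp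
    have h2 : HasDerivAt (fun s : ℝ => -(((t - s : ℝ) : ℂ) / z)) (-(((-1 : ℝ) : ℂ) / z)) s := by
      have h3 : HasDerivAt (fun s : ℝ => ((t - s : ℝ) : ℂ)) ((-1 : ℝ) : ℂ) s := by
        exact ((hasDerivAt_id s).const_sub t).ofReal_comp
      exact (h3.div_const z).neg
    have h4 := ((h0.fun_add (h1.const_mul (z * ((a : ℂ) * z - 1)⁻¹))).fun_mul h2.cexp).const_mul
      (-(z * ((b : ℂ) * z - 1)⁻¹))
    refine h4.congr_deriv ?_
    have hA : ((a : ℂ) * z - 1)⁻¹ * ((a : ℂ) * z - 1) = 1 := inv_mul_cancel₀ haz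
    have hB : ((b : ℂ) * z - 1)⁻¹ * ((b : ℂ) * z - 1) = 1 := inv_mul_cancel₀ hbz
    have hZ : z * z⁻¹ = 1 := mul_inv_cancel₀ hz
    push_cast
    generalize Complex.exp (-(((t : ℂ) - s) / z)) = X
    generalize Complex.exp (-((a : ℂ) * s)) = E
    generalize ((a : ℂ) * z - 1)⁻¹ = A at hA ⊢
    generalize ((b : ℂ) * z - 1)⁻¹ = B at hB ⊢
    generalize ((E2 a b s : ℝ) : ℂ) = F
    linear_combination (z * B * X * E) * hA - (z * B * X * A * E + B * X * F) * hZ + (X * F) * hB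
  rw [intervalIntegral.integral_eq_sub_of_hasDerivAt hd]
  · simp only [sub_self, Complex.ofReal_zero, zero_div, neg_zero, Complex.exp_zero, mul_one,
      mul_zero, Real.exp_zero, Complex.ofReal_one, sub_zero, E2_zero, zero_add]
    ring
  · refine Continuous.intervalIntegrable ?_ _ _
    have := E2_continuous a b
    fun_prop

theorem cont_inv {a : ℝ} (ha : Ins c R a) :
    ContinuousOn (fun z : ℂ => ((a : ℂ) * z - 1)⁻¹) (sphere (c : ℂ) R) := by
  intro z hz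
  exact (diff_inv (ha.ne_sphere hz)).continuousAt.continuousWithinAt

theorem cont_exp (hc : R < c) (t : ℝ) :
    ContinuousOn (fun z : ℂ => Complex.exp (-((t : ℂ) / z))) (sphere (c : ℂ) R) := by
  intro z hz
  have hz0 := ne_zero hc (sphere_subset_closedBall hz)
  refine ContinuousAt.continuousWithinAt ?_
  refine (ContinuousAt.neg ?_).cexp
  exact continuousAt_const.div continuousAt_id hz0

theorem G2 (hR : 0 < R) (hc : R < c) {a b : ℝ} (ha : Ins c R a) (hb : Ins c R b) (s : ℝ) :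
    (2 * (π : ℂ) * Complex.I)⁻¹ * (∮ z in C((c : ℂ), R),
      (((a : ℂ) * z - 1)⁻¹ * ((b : ℂ) * z - 1)⁻¹) * Complex.exp (-((s : ℂ) / z))) =
      ((E2 a b s : ℝ) : ℂ) := by
  have hφ : ContinuousOn (fun z : ℂ => z⁻¹ * ((b : ℂ) * z - 1)⁻¹) (sphere (c : ℂ) R) := by
    refine ContinuousOn.mul ?_ (cont_inv hb)
    intro z hz
    exact (continuousAt_inv₀ (ne_zero hc (sphere_subset_closedBall hz))).continuousWithinAt
  have hg : Continuous (fun u : ℝ => ((Real.exp (-(a * u)) : ℝ) : ℂ)) := by fun_prop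
  have h1 := swap hR hc hφ hg s
  have h2 : ((E2 a b s : ℝ) : ℂ) = (2 * (π : ℂ) * Complex.I)⁻¹ * ∫ u in (0 : ℝ)..s,
      ((Real.exp (-(a * u)) : ℝ) : ℂ) * (∮ z in C((c : ℂ), R), z⁻¹ * ((b : ℂ) * z - 1)⁻¹ *
        Complex.exp (-(((s - u : ℝ) : ℂ) / z))) := by
    rw [← intervalIntegral.integral_const_mul, E2, ← intervalIntegral.integral_ofReal]
    refine intervalIntegral.integral_congr (fun u _ => ?_)
    have h3 := G1 hR hc hb (s - u)
    simp only [Complex.ofReal_mul]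
    rw [← h3]
    ring
  have h4 : (∮ z in C((c : ℂ), R), z⁻¹ * ((b : ℂ) * z - 1)⁻¹ *
      (∫ u in (0 : ℝ)..s, ((Real.exp (-(a * u)) : ℝ) : ℂ) *
        Complex.exp (-(((s - u : ℝ) : ℂ) / z)))) =
      (∮ z in C((c : ℂ), R), (((a : ℂ) * z - 1)⁻¹ * ((b : ℂ) * z - 1)⁻¹) *
        Complex.exp (-((s : ℂ) / z))) := by
    have h5 : (∮ z in C((c : ℂ), R), z⁻¹ * ((b : ℂ) * z - 1)⁻¹ *
      (∫ u in (0 : ℝ)..s, ((Real.exp (-(a * u)) : ℝ) : ℂ) *
        Complex.exp (-(((s - u : ℝ) : ℂ) / z)))) =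
        ∮ z in C((c : ℂ), R), ((((a : ℂ) * z - 1)⁻¹ * ((b : ℂ) * z - 1)⁻¹) *
        Complex.exp (-((s : ℂ) / z)) - ((Real.exp (-(a * s)) : ℝ) : ℂ) *
          (((a : ℂ) * z - 1)⁻¹ * ((b : ℂ) * z - 1)⁻¹)) := by
      refine circleIntegral.integral_congr hR.le (fun z hz => ?_)
      have hz0 := ne_zero hc (sphere_subset_closedBall hz)
      rw [inner1 hz0 (ha.ne_sphere hz)]
      field_simp
    rw [h5, circleIntegral.integral_sub, circleIntegral.integral_const_mul, van2 hR ha hb,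
      mul_zero, sub_zero]
    · exact ContinuousOn.circleIntegrable hR.le (((cont_inv ha).mul (cont_inv hb)).mul (cont_exp hc s))
    · exact ContinuousOn.circleIntegrable hR.le
        (continuousOn_const.mul ((cont_inv ha).mul (cont_inv hb)))
  rw [h2, h1, h4]

theorem G4 (hR : 0 < R) (hc : R < c) {a b d e : ℝ} (ha : Ins c R a) (hb : Ins c R b)
    (hd : Ins c R d) (he : Ins c R e) (t : ℝ) :
    (2 * (π : ℂ) * Complex.I)⁻¹ * (∮ z in C((c : ℂ), R),
      z ^ 2 * (((a : ℂ) * z - 1)⁻¹ * ((b : ℂ) * z - 1)⁻¹ * ((d : ℂ) * z - 1)⁻¹ *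
        ((e : ℂ) * z - 1)⁻¹) * Complex.exp (-((t : ℂ) / z))) =
      ((E4 a b d e t : ℝ) : ℂ) := by
  have hφ : ContinuousOn (fun z : ℂ => ((d : ℂ) * z - 1)⁻¹ * ((e : ℂ) * z - 1)⁻¹)
    (sphere (c : ℂ) R) := (cont_inv hd).mul (cont_inv he)
  have hg : Continuous (fun u : ℝ => ((E2 a b u : ℝ) : ℂ)) :=
    Complex.continuous_ofReal.comp (E2_continuous a b)
  have h1 := swap hR hc hφ hg t
  have h2 : ((E4 a b d e t : ℝ) : ℂ) = (2 * (π : ℂ) * Complex.I)⁻¹ * ∫ u in (0 : ℝ)..t,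
      ((E2 a b u : ℝ) : ℂ) * (∮ z in C((c : ℂ), R), ((d : ℂ) * z - 1)⁻¹ * ((e : ℂ) * z - 1)⁻¹ *
        Complex.exp (-(((t - u : ℝ) : ℂ) / z))) := by
    rw [← intervalIntegral.integral_const_mul, E4, ← intervalIntegral.integral_ofReal]
    refine intervalIntegral.integral_congr (fun u _ => ?_)
    have h3 := G2 hR hc hd he (t - u)
    simp only [Complex.ofReal_mul]
    rw [← h3]
    ring
  have h4 : (∮ z in C((c : ℂ), R), ((d : ℂ) * z - 1)⁻¹ * ((e : ℂ) * z - 1)⁻¹ *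
      (∫ u in (0 : ℝ)..t, ((E2 a b u : ℝ) : ℂ) *
        Complex.exp (-(((t - u : ℝ) : ℂ) / z)))) =
      (∮ z in C((c : ℂ), R), z ^ 2 * (((a : ℂ) * z - 1)⁻¹ * ((b : ℂ) * z - 1)⁻¹ *
        ((d : ℂ) * z - 1)⁻¹ * ((e : ℂ) * z - 1)⁻¹) * Complex.exp (-((t : ℂ) / z))) := by
    have h5 : (∮ z in C((c : ℂ), R), ((d : ℂ) * z - 1)⁻¹ * ((e : ℂ) * z - 1)⁻¹ *
      (∫ u in (0 : ℝ)..t, ((E2 a b u : ℝ) : ℂ) *
        Complex.exp (-(((t - u : ℝ) : ℂ) / z)))) =
        ∮ z in C((c : ℂ), R), (z ^ 2 * (((a : ℂ) * z - 1)⁻¹ * ((b : ℂ) * z - 1)⁻¹ *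
        ((d : ℂ) * z - 1)⁻¹ * ((e : ℂ) * z - 1)⁻¹) * Complex.exp (-((t : ℂ) / z)) -
          (((Real.exp (-(a * t)) : ℝ) : ℂ) *
          (z ^ 2 * (((a : ℂ) * z - 1)⁻¹ * ((b : ℂ) * z - 1)⁻¹ *
            ((d : ℂ) * z - 1)⁻¹ * ((e : ℂ) * z - 1)⁻¹)) +
          ((E2 a b t : ℝ) : ℂ) * (z * (((b : ℂ) * z - 1)⁻¹ * ((d : ℂ) * z - 1)⁻¹ *
            ((e : ℂ) * z - 1)⁻¹)))) := by
      refine circleIntegral.integral_congr hR.le (fun z hz => ?_)
      have hz0 := ne_zero hc (sphere_subset_closedBall hz)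
      rw [inner2 hz0 (ha.ne_sphere hz) (hb.ne_sphere hz)]
      ring
    have i1 : ContinuousOn (fun z : ℂ => z ^ 2 * (((a : ℂ) * z - 1)⁻¹ * ((b : ℂ) * z - 1)⁻¹ *
        ((d : ℂ) * z - 1)⁻¹ * ((e : ℂ) * z - 1)⁻¹)) (sphere (c : ℂ) R) :=
      (continuousOn_id.pow 2).mul ((((cont_inv ha).mul (cont_inv hb)).mul (cont_inv hd)).mul
        (cont_inv he))
    have i2 : ContinuousOn (fun z : ℂ => z * (((b : ℂ) * z - 1)⁻¹ *
        ((d : ℂ) * z - 1)⁻¹ * ((e : ℂ) * z - 1)⁻¹)) (sphere (c : ℂ) R) :=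
      continuousOn_id.mul (((cont_inv hb).mul (cont_inv hd)).mul (cont_inv he))
    rw [h5, circleIntegral.integral_sub, circleIntegral.integral_add,
      circleIntegral.integral_const_mul, circleIntegral.integral_const_mul,
      van4 hR ha hb hd he, van3 hR hb hd he, mul_zero, mul_zero, add_zero, sub_zero]
    · exact ContinuousOn.circleIntegrable hR.le (continuousOn_const.mul i1)
    · exact ContinuousOn.circleIntegrable hR.le (continuousOn_const.mul i2)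
    · exact ContinuousOn.circleIntegrable hR.le (i1.mul (cont_exp hc t))
    · exact ContinuousOn.circleIntegrable hR.le
        ((continuousOn_const.mul i1).add (continuousOn_const.mul i2))
  rw [h2, h1, h4]

/-- a power with positive real exponent as a Laplace integral -/
theorem lap {z : ℂ} (hz : 0 < z.re) {q : ℝ} (hq : 0 < q) :
    (∫ s in Ioi (0 : ℝ), (((s ^ (q - 1) : ℝ)) : ℂ) * Complex.exp (-((s : ℂ) / z))) =
      z ^ (q : ℂ) * ((Real.Gamma q : ℝ) : ℂ) := by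
  have hz0 : z ≠ 0 := by
    rintro rfl
    simp at hz
  have hr : 0 < (1 / z).re := by
    rw [one_div, Complex.inv_re]
    exact div_pos hz (Complex.normSq_pos.2 hz0)
  have h := Pool.Agent.JOL.gg_integral (a := (q : ℂ)) (r := 1 / z) (by simpa using hq) hr
  rw [one_div_one_div, Complex.Gamma_ofReal] at h
  rw [← h]
  refine setIntegral_congr_fun measurableSet_Ioi (fun s hs => ?_)
  have hs0 : (0 : ℝ) ≤ s := le_of_lt hs
  change (((s ^ (q - 1) : ℝ)) : ℂ) * Complex.exp (-((s : ℂ) / z)) =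
    (s : ℂ) ^ ((q : ℂ) - 1) * Complex.exp (-(1 / z * s))
  rw [Complex.ofReal_cpow hs0]
  push_cast
  have : (s : ℂ) / z = 1 / z * s := by ring
  rw [this]

theorem exp_bound (hR : 0 < R) (hc : R < c) {z : ℂ} (hz : z ∈ closedBall (c : ℂ) R) {s : ℝ}
    (hs : 0 ≤ s) : ‖Complex.exp (-((s : ℂ) / z))‖ ≤ Real.exp (-((c - R) / (c + R) ^ 2 * s)) := by
  have hre := re_pos hc hz
  have hz0 := ne_zero hc hz
  rw [Complex.norm_exp]
  apply Real.exp_le_exp.2
  have h1 : (-((s : ℂ) / z)).re = -(s * (z.re / Complex.normSq z)) := by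
    rw [div_eq_mul_inv, Complex.neg_re, Complex.re_ofReal_mul, Complex.inv_re]
  rw [h1]
  have h2 : ‖z - c‖ ≤ R := by simpa [dist_eq_norm] using hz
  have h3 : c - R ≤ z.re := by
    have h4 : |(z - c).re| ≤ ‖z - c‖ := Complex.abs_re_le_norm _
    have h5 := (abs_le.1 (h4.trans h2)).1
    simp only [Complex.sub_re, Complex.ofReal_re] at h5
    linarith
  have h6 : Complex.normSq z ≤ (c + R) ^ 2 := by
    rw [Complex.normSq_eq_norm_sq]
    have h7 : ‖z‖ ≤ c + R := by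
      calc ‖z‖ = ‖(z - c) + c‖ := by ring_nf
        _ ≤ ‖z - c‖ + ‖(c : ℂ)‖ := norm_add_le _ _
        _ ≤ R + c := by
          rw [Complex.norm_real, Real.norm_of_nonneg (by linarith)]
          linarith
        _ = c + R := by ring
    gcongr
  have h8 : 0 < Complex.normSq z := Complex.normSq_pos.2 hz0
  have h9 : (c - R) / (c + R) ^ 2 ≤ z.re / Complex.normSq z :=
    div_le_div₀ hre.le h3 h8 h6
  nlinarith

/-- the integrand of the double integral -/
theorem ker_integrable (hR : 0 < R) (hc : R < c) {φ : ℂ → ℂ}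
    (hφ : ContinuousOn φ (sphere (c : ℂ) R)) {q : ℝ} (hq : 0 < q) :
    Integrable (Function.uncurry fun (θ s : ℝ) => (((s ^ (q - 1) : ℝ)) : ℂ) *
      (deriv (circleMap (c : ℂ) R) θ • (φ (circleMap (c : ℂ) R θ) *
        Complex.exp (-((s : ℂ) / circleMap (c : ℂ) R θ)))))
      ((volume.restrict (uIoc 0 (2 * π))).prod (volume.restrict (Ioi (0 : ℝ)))) := by
  have hφ' : Continuous (fun θ => φ (circleMap (c : ℂ) R θ)) :=
    hφ.comp_continuous (continuous_circleMap _ _) (fun θ => circleMap_mem_sphere _ hR.le θ)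
  obtain ⟨M, hM⟩ := (isCompact_sphere (c : ℂ) R).exists_bound_of_continuousOn hφ
  set δ : ℝ := (c - R) / (c + R) ^ 2 with hδ
  have hδ0 : 0 < δ := by
    have : 0 < c + R := by linarith
    have h2 : 0 < c - R := by linarith
    positivity
  have hint : Integrable (fun x : ℝ × ℝ => (R * M) * (x.2 ^ (q - 1) * Real.exp (-(δ * x.2))))
      ((volume.restrict (uIoc 0 (2 * π))).prod (volume.restrict (Ioi (0 : ℝ)))) := by
    have h1 : Integrable (fun _ : ℝ => (R * M)) (volume.restrict (uIoc (0 : ℝ) (2 * π))) := by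
      exact continuous_const.integrableOn_uIoc
    exact h1.mul_prod (Pool.Agent.JOL.gg_int hq hδ0)
  refine hint.mono' ?_ ?_
  · rw [Measure.prod_restrict]
    refine ContinuousOn.aestronglyMeasurable ?_ (measurableSet_uIoc.prod measurableSet_Ioi)
    have hcm : Continuous (fun x : ℝ × ℝ => circleMap (c : ℂ) R x.1) :=
      (continuous_circleMap _ _).comp continuous_fst
    have hd : Continuous (fun x : ℝ × ℝ => deriv (circleMap (c : ℂ) R) x.1) := by
      simp only [deriv_circleMap]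
      exact (((continuous_circleMap _ _).comp continuous_fst)).mul continuous_const
    have he : Continuous (fun x : ℝ × ℝ => Complex.exp (-((x.2 : ℂ) / circleMap (c : ℂ) R x.1))) := by
      refine Complex.continuous_exp.comp ?_
      refine Continuous.neg ?_
      refine Continuous.div ?_ hcm (fun x => cm_ne hc hR x.1)
      exact Complex.continuous_ofReal.comp continuous_snd
    refine ContinuousOn.mul ?_ (hd.smul ((hφ'.comp continuous_fst).mul he)).continuousOn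
    refine Complex.continuous_ofReal.comp_continuousOn ?_
    intro x hx
    refine ContinuousAt.continuousWithinAt ?_
    exact (continuousAt_snd).rpow_const (Or.inl (ne_of_gt hx.2))
  · rw [Measure.prod_restrict]
    filter_upwards [ae_restrict_mem (measurableSet_uIoc.prod measurableSet_Ioi)] with x hx
    have hs : (0 : ℝ) < x.2 := hx.2
    have hsph := circleMap_mem_sphere (c : ℂ) hR.le x.1
    simp only [Function.uncurry]
    rw [norm_mul, norm_smul, norm_mul, Complex.norm_real,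
      Real.norm_of_nonneg (Real.rpow_nonneg hs.le _)]
    have h1 : ‖deriv (circleMap (c : ℂ) R) x.1‖ = R := by
      rw [deriv_circleMap, norm_mul, Complex.norm_I, mul_one, norm_circleMap_zero,
        abs_of_pos hR]
    rw [h1]
    have h2 := exp_bound hR hc (sphere_subset_closedBall hsph) hs.le
    have h3 := hM _ hsph
    have h4 : 0 ≤ x.2 ^ (q - 1) := Real.rpow_nonneg hs.le _
    have h5 : ‖φ (circleMap (c : ℂ) R x.1)‖ * ‖Complex.exp (-((x.2 : ℂ) / circleMap (c : ℂ) R x.1))‖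
        ≤ M * Real.exp (-(δ * x.2)) :=
      mul_le_mul h3 h2 (norm_nonneg _) ((norm_nonneg _).trans h3)
    calc x.2 ^ (q - 1) * (R * (‖φ (circleMap (c : ℂ) R x.1)‖ *
          ‖Complex.exp (-((x.2 : ℂ) / circleMap (c : ℂ) R x.1))‖))
        ≤ x.2 ^ (q - 1) * (R * (M * Real.exp (-(δ * x.2)))) := by gcongr
      _ = R * M * (x.2 ^ (q - 1) * Real.exp (-(δ * x.2))) := by ring

/-- contour integral with a real power = Laplace moment of the contour integral -/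
theorem swapIoi (hR : 0 < R) (hc : R < c) {φ : ℂ → ℂ}
    (hφ : ContinuousOn φ (sphere (c : ℂ) R)) {q : ℝ} (hq : 0 < q) :
    (∮ z in C((c : ℂ), R), φ z * z ^ (q : ℂ)) * ((Real.Gamma q : ℝ) : ℂ) =
      ∫ s in Ioi (0 : ℝ), (((s ^ (q - 1) : ℝ)) : ℂ) *
        ∮ z in C((c : ℂ), R), φ z * Complex.exp (-((s : ℂ) / z)) := by
  have h1 := intervalIntegral_integral_swap (ker_integrable hR hc hφ hq)
  have h2 : (∫ s in Ioi (0 : ℝ), (((s ^ (q - 1) : ℝ)) : ℂ) *
        ∮ z in C((c : ℂ), R), φ z * Complex.exp (-((s : ℂ) / z))) =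
      ∫ s in Ioi (0 : ℝ), ∫ θ in (0 : ℝ)..2 * π, (((s ^ (q - 1) : ℝ)) : ℂ) *
      (deriv (circleMap (c : ℂ) R) θ • (φ (circleMap (c : ℂ) R θ) *
        Complex.exp (-((s : ℂ) / circleMap (c : ℂ) R θ)))) := by
    refine setIntegral_congr_fun measurableSet_Ioi (fun s _ => ?_)
    simp only [circleIntegral]
    rw [intervalIntegral.integral_const_mul]
  rw [h2, ← h1]
  have h3 : (∮ z in C((c : ℂ), R), φ z * z ^ (q : ℂ)) * ((Real.Gamma q : ℝ) : ℂ) =
      ∮ z in C((c : ℂ), R), φ z * (z ^ (q : ℂ) * ((Real.Gamma q : ℝ) : ℂ)) := by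
    rw [mul_comm, ← circleIntegral.integral_const_mul]
    refine circleIntegral.integral_congr hR.le (fun z _ => ?_)
    ring
  rw [h3, circleIntegral]
  refine intervalIntegral.integral_congr (fun θ _ => ?_)
  have hsph := circleMap_mem_sphere (c : ℂ) hR.le θ
  have h4 := lap (re_pos hc (sphere_subset_closedBall hsph)) hq
  change deriv (circleMap (c : ℂ) R) θ • (φ (circleMap (c : ℂ) R θ) *
    (circleMap (c : ℂ) R θ ^ (q : ℂ) * ((Real.Gamma q : ℝ) : ℂ))) = ∫ s in Ioi (0 : ℝ),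
      (((s ^ (q - 1) : ℝ)) : ℂ) *
      (deriv (circleMap (c : ℂ) R) θ • (φ (circleMap (c : ℂ) R θ) *
        Complex.exp (-((s : ℂ) / circleMap (c : ℂ) R θ))))
  rw [← h4, smul_eq_mul, ← mul_assoc, ← integral_const_mul]
  refine setIntegral_congr_fun measurableSet_Ioi (fun s _ => ?_)
  simp only [smul_eq_mul]
  ring

theorem swapIoi_integrable (hR : 0 < R) (hc : R < c) {φ : ℂ → ℂ}
    (hφ : ContinuousOn φ (sphere (c : ℂ) R)) {q : ℝ} (hq : 0 < q) :
    IntegrableOn (fun s : ℝ => (((s ^ (q - 1) : ℝ)) : ℂ) *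
        ∮ z in C((c : ℂ), R), φ z * Complex.exp (-((s : ℂ) / z))) (Ioi (0 : ℝ)) := by
  have h1 := (ker_integrable hR hc hφ hq).integral_prod_right
  refine h1.congr ?_
  filter_upwards with s
  simp only [Function.uncurry, circleIntegral]
  rw [intervalIntegral.integral_of_le Real.two_pi_pos.le, uIoc_of_le Real.two_pi_pos.le,
    integral_const_mul]

theorem cont_prod {a b d e : ℝ} (ha : Ins c R a) (hb : Ins c R b)
    (hd : Ins c R d) (he : Ins c R e) :
    ContinuousOn (fun z : ℂ => z ^ 2 * (((a : ℂ) * z - 1)⁻¹ * ((b : ℂ) * z - 1)⁻¹ *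
        ((d : ℂ) * z - 1)⁻¹ * ((e : ℂ) * z - 1)⁻¹)) (sphere (c : ℂ) R) :=
  (continuousOn_id.pow 2).mul ((((cont_inv ha).mul (cont_inv hb)).mul (cont_inv hd)).mul
    (cont_inv he))

/-- **K1**: the contour integral of `z^(p-1)` over four factors. -/
theorem K1 (hR : 0 < R) (hc : R < c) {a b d e : ℝ} (ha : Ins c R a) (hb : Ins c R b)
    (hd : Ins c R d) (he : Ins c R e) {p : ℝ} (hp : 3 < p) :
    (2 * (π : ℂ) * Complex.I)⁻¹ * (∮ z in C((c : ℂ), R), z ^ (((p - 1 : ℝ)) : ℂ) *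
      (((a : ℂ) * z - 1)⁻¹ * ((b : ℂ) * z - 1)⁻¹ * ((d : ℂ) * z - 1)⁻¹ *
        ((e : ℂ) * z - 1)⁻¹)) =
      (((Real.Gamma (p - 3))⁻¹ * ∫ s in Ioi (0 : ℝ), s ^ (p - 4) * E4 a b d e s : ℝ) : ℂ) := by
  have hq : 0 < p - 3 := by linarith
  have h1 := swapIoi hR hc (cont_prod ha hb hd he) hq
  have h2 : (∮ z in C((c : ℂ), R), z ^ (((p - 1 : ℝ)) : ℂ) *
      (((a : ℂ) * z - 1)⁻¹ * ((b : ℂ) * z - 1)⁻¹ * ((d : ℂ) * z - 1)⁻¹ *
        ((e : ℂ) * z - 1)⁻¹)) = ∮ z in C((c : ℂ), R), z ^ 2 * (((a : ℂ) * z - 1)⁻¹ *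
        ((b : ℂ) * z - 1)⁻¹ * ((d : ℂ) * z - 1)⁻¹ * ((e : ℂ) * z - 1)⁻¹) *
          z ^ (((p - 3 : ℝ)) : ℂ) := by
    refine circleIntegral.integral_congr hR.le (fun z hz => ?_)
    have hz0 := ne_zero hc (sphere_subset_closedBall hz)
    have h3 : z ^ (((p - 1 : ℝ)) : ℂ) = z ^ 2 * z ^ (((p - 3 : ℝ)) : ℂ) := by
      have h4 : (((p - 1 : ℝ)) : ℂ) = ((2 : ℕ) : ℂ) + (((p - 3 : ℝ)) : ℂ) := by
        push_cast; ring
      rw [h4, Complex.cpow_add _ _ hz0, Complex.cpow_natCast]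
    rw [h3]
    ring
  have hG : ((Real.Gamma (p - 3) : ℝ) : ℂ) ≠ 0 := by
    exact_mod_cast (Real.Gamma_pos_of_pos hq).ne'
  have h5 : (∫ s in Ioi (0 : ℝ), (((s ^ (p - 3 - 1) : ℝ)) : ℂ) *
      ((2 * (π : ℂ) * Complex.I)⁻¹ * ∮ z in C((c : ℂ), R), z ^ 2 * (((a : ℂ) * z - 1)⁻¹ *
        ((b : ℂ) * z - 1)⁻¹ * ((d : ℂ) * z - 1)⁻¹ * ((e : ℂ) * z - 1)⁻¹) *
        Complex.exp (-((s : ℂ) / z)))) =
      ((∫ s in Ioi (0 : ℝ), s ^ (p - 4) * E4 a b d e s : ℝ) : ℂ) := by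
    rw [← integral_complex_ofReal]
    refine setIntegral_congr_fun measurableSet_Ioi (fun s _ => ?_)
    have h6 := G4 hR hc ha hb hd he s
    have h7 : p - 3 - 1 = p - 4 := by ring
    rw [h6, h7]
    push_cast
    ring
  have h8 : (∫ s in Ioi (0 : ℝ), (((s ^ (p - 3 - 1) : ℝ)) : ℂ) *
      ((2 * (π : ℂ) * Complex.I)⁻¹ * ∮ z in C((c : ℂ), R), z ^ 2 * (((a : ℂ) * z - 1)⁻¹ *
        ((b : ℂ) * z - 1)⁻¹ * ((d : ℂ) * z - 1)⁻¹ * ((e : ℂ) * z - 1)⁻¹) *
        Complex.exp (-((s : ℂ) / z)))) = (2 * (π : ℂ) * Complex.I)⁻¹ *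
      ∫ s in Ioi (0 : ℝ), (((s ^ (p - 3 - 1) : ℝ)) : ℂ) *
      (∮ z in C((c : ℂ), R), z ^ 2 * (((a : ℂ) * z - 1)⁻¹ *
        ((b : ℂ) * z - 1)⁻¹ * ((d : ℂ) * z - 1)⁻¹ * ((e : ℂ) * z - 1)⁻¹) *
        Complex.exp (-((s : ℂ) / z))) := by
    rw [← integral_const_mul]
    refine setIntegral_congr_fun measurableSet_Ioi (fun s _ => ?_)
    ring
  rw [h2, Complex.ofReal_mul, Complex.ofReal_inv, ← h5, h8, ← h1]
  generalize (∮ z in C((c : ℂ), R), z ^ 2 * (((a : ℂ) * z - 1)⁻¹ *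
        ((b : ℂ) * z - 1)⁻¹ * ((d : ℂ) * z - 1)⁻¹ * ((e : ℂ) * z - 1)⁻¹) *
          z ^ (((p - 3 : ℝ)) : ℂ)) = X
  field_simp

theorem E4_integrable (hR : 0 < R) (hc : R < c) {a b d e : ℝ} (ha : Ins c R a) (hb : Ins c R b)
    (hd : Ins c R d) (he : Ins c R e) {p : ℝ} (hp : 3 < p) :
    IntegrableOn (fun s : ℝ => s ^ (p - 4) * E4 a b d e s) (Ioi 0) := by
  have hq : 0 < p - 3 := by linarith
  have h1 := (swapIoi_integrable hR hc (cont_prod ha hb hd he) hq).const_mul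
    ((2 * (π : ℂ) * Complex.I)⁻¹)
  have h2 : IntegrableOn (fun s : ℝ => ((s ^ (p - 4) * E4 a b d e s : ℝ) : ℂ)) (Ioi 0) := by
    refine h1.congr ?_
    filter_upwards with s
    have h6 := G4 hR hc ha hb hd he s
    have h7 : p - 3 - 1 = p - 4 := by ring
    rw [h7]
    push_cast
    rw [← h6]
    ring
  have h3 := h2.re
  simp only [RCLike.re_to_complex, Complex.ofReal_re] at h3
  exact h3

end contour2

end Pool.Agent.QSK1
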