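import Pool.Agent.Lib_helper69.QB.Defs
import Pool.Agent.Lib_helper19.QS.CQmat

/-!
# MP_859019, QS: the family `Hp` in terms of rectangular factors, boundary values, duality
-/

set_option autoImplicit false

open scoped BigOperators ComplexOrder Kronecker MatrixOrder Topology
open MeasureTheory Set Matrix Filter

namespace Pool.Agent.QB

open Pool.Agent.RC Pool.Agent.LDK Pool.Agent.LDK.DUAL Pool.Agent.Lib_helper19.QS

variable {ι κ μ : Type} [Fintype ι] [DecidableEq ι] [Fintype κ] [DecidableEq κ]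
  [Fintype μ] [DecidableEq μ]

/-- `(f₁ ⊗ X, f₂ ⊗ Y)` -/
noncomputable def Wm (α β γ : ℝ) (X Y : Matrix μ ι ℂ) : Matrix (Fin 2 × μ) (ι ⊕ ι) ℂ :=
  fun i j => Sum.elim
    (fun k => (![((√α : ℝ) : ℂ), 0] i.1) * X i.2 k)
    (fun k => (![((√β * √γ : ℝ) : ℂ), ((√β * √(1 - γ) : ℝ) : ℂ)] i.1) * Y i.2 k) j

theorem Wm_mul_conj {α β γ : ℝ} (hα : 0 ≤ α) (hβ : 0 ≤ β) (h0 : 0 ≤ γ) (h1 : γ ≤ 1)
    (X Y : Matrix μ ι ℂ) :
    Wm α β γ X Y * (Wm α β γ X Y)ᴴ = Mt α β γ (X * Xᴴ) (Y * Yᴴ) := by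
  have ea : ((√α : ℝ) : ℂ) * ((√α : ℝ) : ℂ) = (α : ℂ) := ofReal_sqrt_mul α hα
  have eb : ((√β : ℝ) : ℂ) * ((√β : ℝ) : ℂ) = (β : ℂ) := ofReal_sqrt_mul β hβ
  have eg : ((√γ : ℝ) : ℂ) * ((√γ : ℝ) : ℂ) = (γ : ℂ) := ofReal_sqrt_mul γ h0
  have eg' : ((√(1 - γ) : ℝ) : ℂ) * ((√(1 - γ) : ℝ) : ℂ) = ((1 - γ : ℝ) : ℂ) :=
    ofReal_sqrt_mul _ (by linarith)
  ext ⟨i, k⟩ ⟨j, l⟩
  have hX : ∀ u v : ℂ, (∑ x : ι, u * X k x * star (v * X l x)) =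
      u * star v * (X * Xᴴ) k l := by
    intro u v
    rw [Matrix.mul_apply, Finset.mul_sum]
    refine Finset.sum_congr rfl fun x _ => ?_
    rw [Matrix.conjTranspose_apply, star_mul']
    ring
  have hY : ∀ u v : ℂ, (∑ x : ι, u * Y k x * star (v * Y l x)) =
      u * star v * (Y * Yᴴ) k l := by
    intro u v
    rw [Matrix.mul_apply, Finset.mul_sum]
    refine Finset.sum_congr rfl fun x _ => ?_
    rw [Matrix.conjTranspose_apply, star_mul']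
    ring
  rw [Matrix.mul_apply, Fintype.sum_sum_type]
  simp only [Matrix.conjTranspose_apply, Wm, Sum.elim_inl, Sum.elim_inr]
  rw [hX, hY]
  simp only [Mt, Matrix.add_apply, Matrix.smul_apply, Matrix.kroneckerMap_apply, smul_eq_mul]
  push_cast at eg'
  fin_cases i <;> fin_cases j <;> simp [E1, E2]
  · linear_combination ((X * Xᴴ) k l) * ea + ((Y * Yᴴ) k l * √γ * √γ) * eb +
      ((Y * Yᴴ) k l * β) * eg
  · linear_combination ((Y * Yᴴ) k l * √γ * √(1 - γ)) * eb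
  · linear_combination ((Y * Yᴴ) k l * √γ * √(1 - γ)) * eb
  · linear_combination ((Y * Yᴴ) k l * √(1 - γ) * √(1 - γ)) * eb + ((Y * Yᴴ) k l * β) * eg'

theorem Wm_conj_mul {α β γ : ℝ} (hα : 0 ≤ α) (hβ : 0 ≤ β) (h0 : 0 ≤ γ) (h1 : γ ≤ 1)
    (X Y : Matrix μ ι ℂ) :
    (Wm α β γ X Y)ᴴ * Wm α β γ X Y = Gm X Y α β (√(γ * (α * β))) := by
  have ea : ((√α : ℝ) : ℂ) * ((√α : ℝ) : ℂ) = (α : ℂ) := ofReal_sqrt_mul α hα
  have eb : ((√β : ℝ) : ℂ) * ((√β : ℝ) : ℂ) = (β : ℂ) := ofReal_sqrt_mul β hβ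
  have eg : ((√γ : ℝ) : ℂ) * ((√γ : ℝ) : ℂ) = (γ : ℂ) := ofReal_sqrt_mul γ h0
  have eg' : ((√(1 - γ) : ℝ) : ℂ) * ((√(1 - γ) : ℝ) : ℂ) = ((1 - γ : ℝ) : ℂ) :=
    ofReal_sqrt_mul _ (by linarith)
  have er : √(γ * (α * β)) = √γ * (√α * √β) := by
    rw [Real.sqrt_mul h0, Real.sqrt_mul hα]
  push_cast at eg'
  have key : ∀ (u v : Fin 2 → ℂ) (P Q : Matrix μ ι ℂ) (k l : ι),
      (∑ x : Fin 2 × μ, star (u x.1 * P x.2 k) * (v x.1 * Q x.2 l)) =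
        (∑ i : Fin 2, star (u i) * v i) * (Pᴴ * Q) k l := by
    intro u v P Q k l
    rw [Fintype.sum_prod_type, Finset.sum_mul]
    refine Finset.sum_congr rfl fun i _ => ?_
    rw [Matrix.mul_apply, Finset.mul_sum]
    refine Finset.sum_congr rfl fun x _ => ?_
    rw [Matrix.conjTranspose_apply, star_mul']
    ring
  ext i j
  rw [Matrix.mul_apply]
  simp only [Matrix.conjTranspose_apply, Wm, Gm, er]
  rcases i with k | k <;> rcases j with l | l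
  · simp only [Sum.elim_inl, key, Matrix.fromBlocks_apply₁₁, Matrix.smul_apply, smul_eq_mul]
    simp [Fin.sum_univ_two, -mul_eq_mul_right_iff, -mul_eq_mul_left_iff]
    linear_combination ((Xᴴ * X) k l) * ea
  · simp only [Sum.elim_inl, Sum.elim_inr, key, Matrix.fromBlocks_apply₁₂, Matrix.smul_apply,
      smul_eq_mul]
    simp [Fin.sum_univ_two, -mul_eq_mul_right_iff, -mul_eq_mul_left_iff]
    ring
  · simp only [Sum.elim_inl, Sum.elim_inr, key, Matrix.fromBlocks_apply₂₁, Matrix.smul_apply,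
      smul_eq_mul]
    simp [Fin.sum_univ_two, -mul_eq_mul_right_iff, -mul_eq_mul_left_iff]
    ring
  · simp only [Sum.elim_inr, key, Matrix.fromBlocks_apply₂₂, Matrix.smul_apply, smul_eq_mul]
    simp [Fin.sum_univ_two, -mul_eq_mul_right_iff, -mul_eq_mul_left_iff]
    linear_combination ((Yᴴ * Y) k l) * (β * (eg + eg') + ((√γ : ℝ) * (√γ : ℝ) +
      (√(1 - γ) : ℝ) * (√(1 - γ) : ℝ)) * eb)

/-- **bridge**: the family `Hp` in terms of rectangular factors of the letters -/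
theorem Hp_eq_HX {p : ℝ} (hp : 0 < p) {α β γ : ℝ} (hα : 0 ≤ α) (hβ : 0 ≤ β) (h0 : 0 ≤ γ)
    (h1 : γ ≤ 1) (X Y : Matrix μ ι ℂ) :
    Hp p α β γ (X * Xᴴ) (Y * Yᴴ) = HX p X Y α β (γ * (α * β)) := by
  unfold Hp HX tp
  rw [← Wm_mul_conj hα hβ h0 h1, trF_rpow_mul hp, Wm_conj_mul hα hβ h0 h1]

theorem exists_XX {S : Matrix κ κ ℂ} (h : S.PosSemidef) : ∃ X : Matrix κ κ ℂ, S = X * Xᴴ := by
  obtain ⟨B, hB⟩ := CStarAlgebra.nonneg_iff_eq_star_mul_self.mp h.nonneg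
  exact ⟨Bᴴ, by rw [Matrix.conjTranspose_conjTranspose]; exact hB⟩

theorem tp_Gm_smul {p : ℝ} {X Y : Matrix μ ι ℂ} {α β r c : ℝ} (hc : 0 ≤ c)
    (hpsd : (Gm X Y α β r).PosSemidef) :
    tp p (Gm X Y (c * α) (c * β) (c * r)) = c ^ p * tp p (Gm X Y α β r) := by
  rw [← tp_smul hpsd hc]
  congr 1
  unfold Gm
  rw [Matrix.fromBlocks_smul]
  simp only [smul_smul, Complex.ofReal_mul]

theorem Gm_psd {α β γ : ℝ} (hα : 0 ≤ α) (hβ : 0 ≤ β) (h0 : 0 ≤ γ)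
    (h1 : γ ≤ 1) (X Y : Matrix μ ι ℂ) : (Gm X Y α β (√(γ * (α * β)))).PosSemidef := by
  rw [← Wm_conj_mul hα hβ h0 h1]
  exact Matrix.posSemidef_conjTranspose_mul_self _

/-- homogeneity -/
theorem Hp_smul {p : ℝ} (hp : 0 < p) {α β γ : ℝ} (hα : 0 ≤ α) (hβ : 0 ≤ β) (h0 : 0 ≤ γ)
    (h1 : γ ≤ 1) {S T : Matrix κ κ ℂ} (hS : S.PosSemidef) (hT : T.PosSemidef) {r : ℝ}
    (hr : 0 ≤ r) : Hp p (r * α) (r * β) γ S T = r ^ p * Hp p α β γ S T := by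
  obtain ⟨X, rfl⟩ := exists_XX hS
  obtain ⟨Y, rfl⟩ := exists_XX hT
  rw [Hp_eq_HX hp (mul_nonneg hr hα) (mul_nonneg hr hβ) h0 h1, Hp_eq_HX hp hα hβ h0 h1]
  unfold HX
  rw [← tp_Gm_smul hr (Gm_psd hα hβ h0 h1 X Y)]
  congr 2
  have e : γ * (r * α * (r * β)) = (r * r) * (γ * (α * β)) := by ring
  rw [e, Real.sqrt_mul (mul_nonneg hr hr), Real.sqrt_mul_self hr]

theorem Hp_zero {p : ℝ} (hp : 0 < p) {α β : ℝ} (hα : 0 ≤ α) (hβ : 0 ≤ β) {S T : Matrix κ κ ℂ}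
    (hS : S.PosSemidef) (hT : T.PosSemidef) :
    Hp p α β 0 S T = α ^ p * trF (fun x => x ^ p) S + β ^ p * trF (fun x => x ^ p) T := by
  obtain ⟨X, rfl⟩ := exists_XX hS
  obtain ⟨Y, rfl⟩ := exists_XX hT
  rw [Hp_eq_HX hp hα hβ le_rfl zero_le_one, zero_mul, HX_orth hp _ _ hα hβ]

theorem Hp_one {p : ℝ} (hp : 0 < p) {α β : ℝ} (hα : 0 ≤ α) (hβ : 0 ≤ β) {S T : Matrix κ κ ℂ}
    (hS : S.PosSemidef) (hT : T.PosSemidef) :
    Hp p α β 1 S T = trF (fun x => x ^ p) ((α : ℂ) • S + (β : ℂ) • T) := by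
  obtain ⟨X, rfl⟩ := exists_XX hS
  obtain ⟨Y, rfl⟩ := exists_XX hT
  rw [Hp_eq_HX hp hα hβ zero_le_one le_rfl, one_mul, HX_par hp _ _ hα hβ]

theorem Hp_right_zero {p : ℝ} (hp : 0 < p) {α γ : ℝ} (hα : 0 ≤ α) (h0 : 0 ≤ γ)
    (h1 : γ ≤ 1) {S T : Matrix κ κ ℂ} (hS : S.PosSemidef) (hT : T.PosSemidef) :
    Hp p α 0 γ S T = α ^ p * trF (fun x => x ^ p) S := by
  obtain ⟨X, rfl⟩ := exists_XX hS
  obtain ⟨Y, rfl⟩ := exists_XX hT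
  rw [Hp_eq_HX hp hα le_rfl h0 h1, mul_zero, mul_zero, HX_orth hp _ _ hα le_rfl,
    Real.zero_rpow hp.ne', zero_mul, add_zero]

theorem Hp_left_zero {p : ℝ} (hp : 0 < p) {β γ : ℝ} (hβ : 0 ≤ β) (h0 : 0 ≤ γ)
    (h1 : γ ≤ 1) {S T : Matrix κ κ ℂ} (hS : S.PosSemidef) (hT : T.PosSemidef) :
    Hp p 0 β γ S T = β ^ p * trF (fun x => x ^ p) T := by
  obtain ⟨X, rfl⟩ := exists_XX hS
  obtain ⟨Y, rfl⟩ := exists_XX hT
  rw [Hp_eq_HX hp le_rfl hβ h0 h1, zero_mul, mul_zero, HX_orth hp _ _ le_rfl hβ,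
    Real.zero_rpow hp.ne', zero_mul, zero_add]

/-- block BV -/
theorem bv (p : ℝ) (hp : 0 < p) (κ : Type) [Fintype κ] [DecidableEq κ] (S T : Matrix κ κ ℂ)
    (hS : S.PosSemidef) (hT : T.PosSemidef) (α β γ : ℝ) (hα : 0 ≤ α) (hβ : 0 ≤ β) (h0 : 0 ≤ γ)
    (h1 : γ ≤ 1) :
    Hp p α 0 γ S T = α ^ p * trF (fun x => x ^ p) S ∧
    Hp p 0 β γ S T = β ^ p * trF (fun x => x ^ p) T ∧
    Hp p α β 0 S T = α ^ p * trF (fun x => x ^ p) S + β ^ p * trF (fun x => x ^ p) T ∧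
    Hp p α β 1 S T = trF (fun x => x ^ p) ((α : ℂ) • S + (β : ℂ) • T) ∧
    ∀ r : ℝ, 0 ≤ r → Hp p (r * α) (r * β) γ S T = r ^ p * Hp p α β γ S T :=
  ⟨Hp_right_zero hp hα h0 h1 hS hT, Hp_left_zero hp hβ h0 h1 hS hT, Hp_zero hp hα hβ hS hT,
    Hp_one hp hα hβ hS hT, fun _ hr => Hp_smul hp hα hβ h0 h1 hS hT hr⟩

/-- block DU -/
theorem du (p : ℝ) (hp : 0 < p) (κ : Type) [Fintype κ] [DecidableEq κ] (A D Y Z : Matrix κ κ ℂ)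
    (hZ : A + D = Zᴴ * Z) (hY : A - D = Yᴴ * Y) (t : ℝ) (ht0 : 0 ≤ t) (ht1 : t ≤ 1) :
    let Q0 : Matrix (κ ⊕ κ) (κ ⊕ κ) ℂ := Matrix.fromBlocks (Z * Zᴴ) 0 0 (Y * Yᴴ)
    let Q1 : Matrix (κ ⊕ κ) (κ ⊕ κ) ℂ := Matrix.fromBlocks 0 (Z * Yᴴ) (Y * Zᴴ) 0
    IsPsdPair Q0 Q1 ∧
    Hp p 1 1 (t ^ 2) (A + D) (A - D) = trF (fun x => x ^ p) (Q0 + (t : ℂ) • Q1) ∧
    Hp p 1 1 (t ^ 2) (A + D) (A - D) = trF (fun x => x ^ p) (Q0 - (t : ℂ) • Q1) ∧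
    Hp p 1 1 (t ^ 2) (Q0 + Q1) (Q0 - Q1) =
      2 ^ p * (trF (fun x => x ^ p) (A + (t : ℂ) • D) + trF (fun x => x ^ p) (A - (t : ℂ) • D)) := by
  intro Q0 Q1
  have ht2 : t ^ 2 ≤ 1 := by nlinarith
  have hpair : IsPsdPair Q0 Q1 := isPsdPair_dual Z Y
  have e1 : A + D = Zᴴ * (Zᴴ)ᴴ := by rw [Matrix.conjTranspose_conjTranspose]; exact hZ
  have e2 : A - D = Yᴴ * (Yᴴ)ᴴ := by rw [Matrix.conjTranspose_conjTranspose]; exact hY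
  have hadd : Q0 + (t : ℂ) • Q1 = Gm Zᴴ Yᴴ 1 1 t := by
    simp only [Q0, Q1, Gm, Matrix.conjTranspose_conjTranspose, Complex.ofReal_one, one_smul]
    rw [Matrix.fromBlocks_smul, Matrix.fromBlocks_add]
    simp
  have hsub : Q0 - (t : ℂ) • Q1 =
      fromBlocks (Z * Zᴴ) (-((t : ℂ) • (Z * Yᴴ))) (-((t : ℂ) • (Y * Zᴴ))) (Y * Yᴴ) := by
    simp only [Q0, Q1]
    rw [Matrix.fromBlocks_smul, sub_eq_add_neg, Matrix.fromBlocks_neg, Matrix.fromBlocks_add]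
    simp
  have h2 : Hp p 1 1 (t ^ 2) (A + D) (A - D) = trF (fun x => x ^ p) (Q0 + (t : ℂ) • Q1) := by
    rw [e1, e2, Hp_eq_HX hp zero_le_one zero_le_one (sq_nonneg t) ht2, mul_one, mul_one, HX,
      Real.sqrt_sq ht0, hadd]
  have hA : IsPsdPair A D := by
    have hs : (A - D).PosSemidef := by rw [hY]; exact Matrix.posSemidef_conjTranspose_mul_self _
    have ha : (A + D).PosSemidef := by rw [hZ]; exact Matrix.posSemidef_conjTranspose_mul_self _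
    refine ⟨?_, hs, ha⟩
    have e : A = (((1 / 2 : ℝ)) : ℂ) • ((A + D) + (A - D)) := by
      push_cast
      module
    rw [e]
    exact psd_smul (ha.add hs) (by norm_num)
  refine ⟨hpair, h2, ?_, ?_⟩
  · rw [h2, hadd, hsub]
    have hG := Gm_herm Zᴴ Yᴴ 1 1 t
    unfold Gm at hG ⊢
    rw [← trF_neg_off _ hG]
    simp only [Matrix.conjTranspose_conjTranspose, Complex.ofReal_one, one_smul]
  · have f1 : Q0 + Q1 = fromRows Z Y * (fromRows Z Y)ᴴ := Ad_add_Dd Z Y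
    have f2 : Q0 - Q1 = fromRows Z (-Y) * (fromRows Z (-Y))ᴴ := Ad_sub_Dd Z Y
    rw [f1, f2, Hp_eq_HX hp zero_le_one zero_le_one (sq_nonneg t) ht2, mul_one, mul_one]
    have hY' : A - (-D) = Zᴴ * Z := by rw [sub_neg_eq_add]; exact hZ
    have hZ' : A + (-D) = Yᴴ * Y := by rw [← sub_eq_add_neg]; exact hY
    have hA' : IsPsdPair A (-D) := by
      refine ⟨hA.pos, ?_, ?_⟩
      · rw [sub_neg_eq_add]; exact hA.add
      · rw [← sub_eq_add_neg]; exact hA.sub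
    rw [pair_b3 hA' hY' hZ' ht0 ht1]
    unfold yf tp
    rw [smul_neg, ← sub_eq_add_neg, sub_neg_eq_add]
    ring

end Pool.Agent.QB
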